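import Pool.Agent.Helper38.NS.Dep
import Pool.Agent.Helper50.CV.SloS

/-! Exact entropy calculus: change of depth: real families stay real, the lift of an extension of the space of depth
`κ` is compatible with functions and informations. -/

set_option autoImplicit false

namespace Pool.Agent.Helper50.VC

open Pool.Agent.Helper69.RK Pool.Agent.Helper31.EC QS Pool.Agent.Helper38.NS

noncomputable section

section

variable {S : Sp}

theorem h_vd_vd {ι : Type} [Fintype ι] (x : ι → QS S) {r : ℝ} (hr : r ≤ 1) (A : S.L) :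
    h (vd x 1) (vd x r ⊔ A) ≤ Fintype.card ι * (1 - r) := by
  have h1 : h (vd x 1) (vd x r ⊔ A) ≤ ∑ i : ι, h (dg (x i) 1) (vd x r ⊔ A) := h_finsup_le _ _ _
  refine h1.trans ?_
  have h2 : ∀ i ∈ (Finset.univ : Finset ι), h (dg (x i) 1) (vd x r ⊔ A) ≤ 1 - r := by
    intro i _
    exact (h_anti ((dg_le_vd x r i).trans le_sup_left)).trans (h_dg_dg (x i) hr)
  refine (Finset.sum_le_sum h2).trans ?_
  rw [Finset.sum_const, Finset.card_univ, nsmul_eq_mul]

theorem h_vd_le {ι : Type} [Fintype ι] (x : ι → QS S) {r : ℝ} (h0 : 0 ≤ r) (A : S.L) :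
    h (vd x r) A ≤ Fintype.card ι * r := by
  have h1 : h (vd x r) A ≤ ∑ i : ι, h (dg (x i) r) A := h_finsup_le _ _ _
  refine h1.trans ?_
  have h2 : ∀ i ∈ (Finset.univ : Finset ι), h (dg (x i) r) A ≤ r := by
    intro i _
    exact (h_le_H _ _).trans (H_dg_le (x i) h0)
  refine (Finset.sum_le_sum h2).trans ?_
  rw [Finset.sum_const, Finset.card_univ, nsmul_eq_mul]

/-- real families are real at every level -/
theorem rl_level {ι : Type} [Fintype ι] {x : ι → QS S} {A : S.L} (hx : Rl x A) {r : ℝ} (h0 : 0 ≤ r) (hr : r ≤ 1) :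
    h (vd x r) A = Fintype.card ι * r := by
  apply le_antisymm (h_vd_le x h0 A)
  have h1 := h_vd_vd x hr A
  have h2 := h_chain (vd x r) (vd x 1) A
  have h3 : vd x r ⊔ vd x 1 = vd x 1 := sup_eq_right.mpr (by
    rw [vd_le]
    exact fun i => (dg_mono (x i) hr).trans (dg_le_vd x 1 i))
  unfold Rl at hx
  rw [h3, hx] at h2
  nlinarith

variable {κ : ℝ} (h0 : 0 < κ) (h1 : κ ≤ 1)

theorem rl_dp {ι : Type} [Fintype ι] {x : ι → QS S} {A : S.L} (hx : Rl x A) :
    Rl (fun i => dQ κ h0 h1 (x i)) (dL κ h0 A) := by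
  unfold Rl
  rw [dQ_vd κ h0 h1 x le_rfl, dL_h, mul_one, rl_level hx h0.le h1]
  field_simp

theorem dQ_le {f : QS S} {A : S.L} (h : dg f 1 ≤ A) : dg (dQ κ h0 h1 f) 1 ≤ dL κ h0 A := by
  rw [dQ_dg κ h0 h1 f le_rfl, mul_one]
  exact dL_mono κ h0 ((dg_mono f h1).trans h)

theorem dQ_vd_le {ι : Type} [Fintype ι] {f : ι → QS S} {A : S.L} (h : vd f 1 ≤ A) :
    vd (fun i => dQ κ h0 h1 (f i)) 1 ≤ dL κ h0 A := by
  rw [vd_le]
  intro i
  exact dQ_le h0 h1 ((dg_le_vd f 1 i).trans h)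

end

section

variable {S T' : Sp} {κ : ℝ} {h0 : 0 < κ} (p : Pj T' (dp S κ h0))

theorem uI_qs (f : QS (dp S κ h0)) : (uI p).qs (p.qs f) = (dP κ h0 (uP p)).qs f := by
  obtain ⟨f, rfl⟩ := mk_surj f
  rfl

theorem uI_map (x : (dp S κ h0).L) : (uI p).map (p.map x) = (dP κ h0 (uP p)).map x := by
  induction x using Sp.cl_ind
  rfl

end

end

end Pool.Agent.Helper50.VC
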