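import Pool.Agent.Helper96.FLT.Fv
import Pool.Agent.Helper50.CV.CbR

/-! Exact entropy calculus: curved lines over a flat base with a vector valued top coordinate: the top coordinates are
polynomials of degree `k` in the height along every line; stars and Z-shapes. Vector valued version of CV/Cb. -/

set_option autoImplicit false

namespace Pool.Agent.Helper50.VC

open Pool.Agent.Helper31.EC QS Pool.Agent.Helper38.NS Pool.Agent.Helper96.FLT Pool.Agent.Helper50.CV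

noncomputable section

/-- lines over a flat base: height `t`, base line `(a, x)`, top coordinate `∑ c_j t^j` -/
structure VB (S : Sp) (d k N : ℕ) where
  t : QS S
  a : Fin d → QS S
  x : Fin d → QS S
  c : Fin N → Fin (k + 1) → QS S

namespace VB

variable {S : Sp} {d k N : ℕ}

/-- the straight description (with a slope depending on the height) -/
def fv (s : VB S d k N) : FV S d N where
  t := s.t
  a := s.a
  x := s.x
  b := fun n => s.c n 0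
  F := fun n => ∑ j : Fin k, s.c n j.succ * s.t ^ (j : ℕ)

/-- all coefficients -/
def cf (s : VB S d k N) (a : Fin N × Fin (k + 1)) : QS S := s.c a.1 a.2

theorem z_eq (s : VB S d k N) (n : Fin N) : s.fv.z n = pe (s.c n) s.t := by
  unfold FV.z pe fv
  rw [Fin.sum_univ_succ]
  simp only [Fin.val_zero, pow_zero, mul_one, Fin.val_succ]
  rw [Finset.mul_sum]
  congr 1
  apply Finset.sum_congr rfl
  intro j _
  ring

/-- hypotheses: heights are free, the coefficients are functions of the base line, directions are independent of the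
point -/
structure Hyp (s : VB S d k N) : Prop where
  ht : h s.fv.iT (s.fv.iL ⊔ s.fv.iB) = 1
  hF : ∀ (n : Fin N) (j : Fin k), dg (s.c n j.succ) 1 ≤ s.fv.iL
  h1 : I s.fv.iX (s.fv.iY ⊔ s.fv.iZ) s.fv.iT = 0

theorem Hyp.s0 {s : VB S d k N} (hs : s.Hyp) : I s.fv.iT (s.fv.iL ⊔ s.fv.iB) ⊥ = 0 := by
  refine ind_of_h ?_
  rw [sup_bot_eq, hs.ht]
  exact FV.h_dg1 _ _

theorem Hyp.s1 {s : VB S d k N} (hs : s.Hyp) : I s.fv.iX (s.fv.iT ⊔ (s.fv.iY ⊔ s.fv.iZ)) ⊥ = 0 := by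
  refine ind_add (C' := s.fv.iT) (ind_symm ?_) hs.h1 (by rw [sup_bot_eq])
  have h1 : s.fv.iX ≤ s.fv.iL := le_sup_right
  exact ind_of hs.s0 le_rfl bot_le le_sup_left (by order)

/-- the coefficients -/
theorem Hyp.vc {s : VB S d k N} (hs : s.Hyp) : vd s.cf 1 ≤ s.fv.iL ⊔ s.fv.iB := by
  rw [vd_le]
  rintro ⟨n, j⟩
  induction j using Fin.cases with
  | zero => exact (dg_le_vd s.fv.b 1 n).trans le_sup_right
  | succ j => exact (hs.hF n j).trans le_sup_left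

theorem iB_le (s : VB S d k N) : s.fv.iB ≤ vd s.cf 1 := by
  unfold FV.iB
  rw [vd_le]
  intro n
  exact dg_le_vd s.cf 1 (n, 0)

theorem Hyp.HT {s : VB S d k N} (hs : s.Hyp) : H s.fv.iT = 1 := by
  apply le_antisymm (FV.H_dg1 s.t)
  have h1 := h_le_H s.fv.iT (s.fv.iL ⊔ s.fv.iB)
  rw [hs.ht] at h1
  exact h1

section star

variable {s : VB S d k N} (w : s.fv.Star)

/-- the direction of the second line is independent of the first line and the height -/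
theorem d1 (hs : s.Hyp) : I (w.p2.map s.fv.iX) (w.p1.map (s.fv.iL ⊔ s.fv.iB) ⊔ w.p1.map s.fv.iT) ⊥ = 0 := by
  have h1 := w.p2.I_map s.fv.iX (s.fv.iT ⊔ (s.fv.iY ⊔ s.fv.iZ)) ⊥
  rw [hs.s1, w.p2.map_bot, w.p2.map_sup, w.p2.map_sup, w.eT, w.eY, w.eZ, ← w.p1.map_sup,
    ← w.p1.map_sup] at h1
  have h2 := ind_add h1 (ind_symm (w.ci (s.fv.iL ⊔ s.fv.iB ⊔ s.fv.iT) s.fv.iX)) (by rw [sup_bot_eq])
  rw [w.p1.map_sup (s.fv.iL ⊔ s.fv.iB)] at h2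
  exact ind_of h2 le_rfl bot_le le_sup_left (by order)

theorem d1' (hs : s.Hyp) : I (w.p1.map s.fv.iX) (w.p2.map (s.fv.iL ⊔ s.fv.iB) ⊔ w.p1.map s.fv.iT) ⊥ = 0 := by
  have h1 := w.p1.I_map s.fv.iX (s.fv.iT ⊔ (s.fv.iY ⊔ s.fv.iZ)) ⊥
  rw [hs.s1, w.p1.map_bot] at h1
  have h2 := ind_add h1 (w.ci s.fv.iX (s.fv.iL ⊔ s.fv.iB ⊔ s.fv.iT)) (by rw [sup_bot_eq])
  rw [w.p2.map_sup (s.fv.iL ⊔ s.fv.iB), w.eT] at h2
  exact ind_of h2 le_rfl bot_le le_sup_left (by order)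

/-- the height is independent of the first line and the direction of the second one -/
theorem d2 (hs : s.Hyp) : I (w.p1.map s.fv.iT) (w.p1.map (s.fv.iL ⊔ s.fv.iB) ⊔ w.p2.map s.fv.iX) ⊥ = 0 := by
  have h1 := w.p1.I_map s.fv.iT (s.fv.iL ⊔ s.fv.iB) ⊥
  rw [hs.s0, w.p1.map_bot] at h1
  refine ind_add h1 (C' := w.p1.map (s.fv.iL ⊔ s.fv.iB)) (ind_symm ?_) (by rw [sup_bot_eq])
  exact ind_of (d1 w hs) bot_le (by order) le_sup_left (by order)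

theorem d2' (hs : s.Hyp) : I (w.p1.map s.fv.iT) (w.p2.map (s.fv.iL ⊔ s.fv.iB) ⊔ w.p1.map s.fv.iX) ⊥ = 0 := by
  have h1 := w.p2.I_map s.fv.iT (s.fv.iL ⊔ s.fv.iB) ⊥
  rw [hs.s0, w.p2.map_bot, w.eT] at h1
  refine ind_add h1 (C' := w.p2.map (s.fv.iL ⊔ s.fv.iB)) (ind_symm ?_) (by rw [sup_bot_eq])
  exact ind_of (d1' w hs) bot_le (by order) le_sup_left (by order)

end star

/-- Z-shape: two stars with the same first line and the same direction of the second line -/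
structure Zed {s : VB S d k N} (w : s.fv.Star) where
  D : Sp
  q1 : Pj D w.D
  q2 : Pj D w.D
  ca : ∀ i, q1.qs (w.p1.qs (s.a i)) = q2.qs (w.p1.qs (s.a i))
  cu : ∀ i, q1.qs (w.p1.qs (s.x i)) = q2.qs (w.p1.qs (s.x i))
  cc : ∀ n j, q1.qs (w.p1.qs (s.c n j)) = q2.qs (w.p1.qs (s.c n j))
  cx : ∀ i, q1.qs (w.p2.qs (s.x i)) = q2.qs (w.p2.qs (s.x i))
  ci : ∀ x y, I (q1.map x) (q2.map y)
    (q1.map (w.p1.map (s.fv.iL ⊔ s.fv.iB) ⊔ w.p2.map s.fv.iX)) = 0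

theorem exists_zed {s : VB S d k N} (hs : s.Hyp) (w : s.fv.Star) : Nonempty (Zed w) := by
  obtain ⟨D, q1, q2, c, i, -⟩ := exists_copyS
    (Sum.elim (fun i => w.p1.qs (s.a i)) (Sum.elim (fun i => w.p1.qs (s.x i))
      (Sum.elim (fun j => w.p1.qs (s.cf j)) (fun i => w.p2.qs (s.x i)))))
  refine ⟨⟨D, q1, q2, fun j => c (Sum.inl j), fun j => c (Sum.inr (Sum.inl j)),
    fun n j => c (Sum.inr (Sum.inr (Sum.inl (n, j)))),
    fun j => c (Sum.inr (Sum.inr (Sum.inr j))), ?_⟩⟩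
  rw [vd_sum, vd_sum, vd_sum, w.p1.qs_vd, w.p1.qs_vd, w.p1.qs_vd, w.p2.qs_vd] at i
  have h1 : w.p1.map (vd s.cf 1) ≤ w.p1.map (s.fv.iL ⊔ s.fv.iB) := w.p1.map_mono hs.vc
  have h1' : w.p1.map s.fv.iB ≤ w.p1.map (vd s.cf 1) := w.p1.map_mono s.iB_le
  have h3 : w.p1.map s.fv.iL = w.p1.map (vd s.a 1) ⊔ w.p1.map (vd s.x 1) := by
    unfold FV.iL
    rw [w.p1.map_sup]
    rfl
  have h4 : w.p1.map (s.fv.iL ⊔ s.fv.iB) = w.p1.map s.fv.iL ⊔ w.p1.map s.fv.iB := w.p1.map_sup _ _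
  have h2 : w.p1.map (vd s.a 1) ⊔ (w.p1.map (vd s.x 1) ⊔ (w.p1.map (vd s.cf 1) ⊔ w.p2.map (vd s.x 1))) =
      w.p1.map (s.fv.iL ⊔ s.fv.iB) ⊔ w.p2.map s.fv.iX := by
    have h5 : s.fv.iX = vd s.x 1 := rfl
    rw [h5]
    order
  rw [h2] at i
  exact i

namespace Zed

variable {s : VB S d k N} {w : s.fv.Star} (v : Zed w)

/-- informations of the Z-shape: first height, second height -/
def T0 : v.D.L := v.q1.map (w.p1.map s.fv.iT)
def T0' : v.D.L := v.q2.map (w.p1.map s.fv.iT)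
/-- direction of the common line -/
def U : v.D.L := v.q1.map (w.p1.map s.fv.iX)
/-- the common line -/
def R : v.D.L := v.q1.map (w.p1.map (s.fv.iL ⊔ s.fv.iB))
/-- the two parallel lines -/
def K : v.D.L := v.q1.map (w.p2.map (s.fv.iL ⊔ s.fv.iB))
def K' : v.D.L := v.q2.map (w.p2.map (s.fv.iL ⊔ s.fv.iB))
def X : v.D.L := v.q1.map (w.p2.map s.fv.iX)
/-- difference of the heights -/
def tau : QS v.D := v.q2.qs (w.p1.qs s.t) - v.q1.qs (w.p1.qs s.t)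

theorem eU : v.q2.map (w.p1.map s.fv.iX) = v.U := by
  unfold U FV.iX
  rw [← w.p1.qs_vd, ← v.q1.qs_vd, ← v.q2.qs_vd]
  exact (vd_congr v.cu 1).symm

theorem eX : v.q2.map (w.p2.map s.fv.iX) = v.X := by
  unfold X FV.iX
  rw [← w.p2.qs_vd, ← v.q1.qs_vd, ← v.q2.qs_vd]
  exact (vd_congr v.cx 1).symm

theorem eR : v.q2.map (w.p1.map (s.fv.iL ⊔ s.fv.iB)) = v.R := by
  have h1 : v.q2.map (w.p1.map (vd s.fv.a 1)) = v.q1.map (w.p1.map (vd s.fv.a 1)) := by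
    rw [← w.p1.qs_vd, ← v.q1.qs_vd, ← v.q2.qs_vd]
    exact (vd_congr v.ca 1).symm
  have h2 : v.q2.map (w.p1.map (vd s.fv.x 1)) = v.q1.map (w.p1.map (vd s.fv.x 1)) := by
    rw [← w.p1.qs_vd, ← v.q1.qs_vd, ← v.q2.qs_vd]
    exact (vd_congr v.cu 1).symm
  have h3 : v.q2.map (w.p1.map (vd s.fv.b 1)) = v.q1.map (w.p1.map (vd s.fv.b 1)) := by
    rw [← w.p1.qs_vd, ← v.q1.qs_vd, ← v.q2.qs_vd]
    exact (vd_congr (fun n => v.cc n 0) 1).symm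
  unfold R FV.iL FV.iB
  rw [w.p1.map_sup, w.p1.map_sup, v.q2.map_sup, v.q2.map_sup, h1, h2, h3, ← v.q1.map_sup,
    ← v.q1.map_sup]

/-- the first height is independent of the second star -/
theorem e1 (hs : s.Hyp) (y : w.D.L) : I v.T0 (v.R ⊔ v.X ⊔ v.q2.map y) ⊥ = 0 := by
  have h1 := v.q1.I_map (w.p1.map s.fv.iT) (w.p1.map (s.fv.iL ⊔ s.fv.iB) ⊔ w.p2.map s.fv.iX) ⊥
  rw [d2 w hs, v.q1.map_bot] at h1
  have h2 := ind_add h1 (v.ci (w.p1.map s.fv.iT) y) (by rw [sup_bot_eq])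
  rw [v.q1.map_sup] at h2
  exact h2

theorem e1' (hs : s.Hyp) (y : w.D.L) : I v.T0' (v.R ⊔ v.X ⊔ v.q1.map y) ⊥ = 0 := by
  have h1 := v.q2.I_map (w.p1.map s.fv.iT) (w.p1.map (s.fv.iL ⊔ s.fv.iB) ⊔ w.p2.map s.fv.iX) ⊥
  rw [d2 w hs, v.q2.map_bot, v.q2.map_sup, v.eR, v.eX] at h1
  have h3 := ind_symm (v.ci y (w.p1.map s.fv.iT))
  rw [v.q1.map_sup] at h3
  exact ind_add h1 h3 (by rw [sup_bot_eq]; rfl)

/-- heights are independent of the second line and the direction of the first one -/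
theorem e3 (hs : s.Hyp) : I v.T0' (v.K' ⊔ v.U) ⊥ = 0 := by
  have h1 := v.q2.I_map (w.p1.map s.fv.iT) (w.p2.map (s.fv.iL ⊔ s.fv.iB) ⊔ w.p1.map s.fv.iX) ⊥
  rw [d2' w hs, v.q2.map_bot, v.q2.map_sup, v.eU] at h1
  exact h1

theorem e3' (hs : s.Hyp) : I v.T0 (v.K ⊔ v.U) ⊥ = 0 := by
  have h1 := v.q1.I_map (w.p1.map s.fv.iT) (w.p2.map (s.fv.iL ⊔ s.fv.iB) ⊔ w.p1.map s.fv.iX) ⊥
  rw [d2' w hs, v.q1.map_bot, v.q1.map_sup] at h1
  exact h1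

theorem HT0 (hs : s.Hyp) : H v.T0 = 1 := by
  unfold T0
  rw [v.q1.H_map, w.p1.H_map, hs.HT]

theorem HT0' (hs : s.Hyp) : H v.T0' = 1 := by
  unfold T0'
  rw [v.q2.H_map, w.p1.H_map, hs.HT]

theorem T0_eq : v.T0 = dg (v.q1.qs (w.p1.qs s.t)) 1 := by
  unfold T0 FV.iT
  rw [← w.p1.qs_dg, ← v.q1.qs_dg]
  rfl

theorem T0'_eq : v.T0' = dg (v.q2.qs (w.p1.qs s.t)) 1 := by
  unfold T0' FV.iT
  rw [← w.p1.qs_dg, ← v.q2.qs_dg]
  rfl

theorem tau_le : dg v.tau 1 ≤ v.T0 ⊔ v.T0' := by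
  rw [v.T0_eq, v.T0'_eq]
  unfold tau
  refine (dg_sub_le _ _ le_rfl).trans ?_
  order

theorem T0'_le : v.T0' ≤ v.T0 ⊔ dg v.tau 1 := by
  rw [v.T0_eq, v.T0'_eq]
  have h1 : v.q2.qs (w.p1.qs s.t) = v.q1.qs (w.p1.qs s.t) + v.tau := by
    unfold tau
    ring
  conv_lhs => rw [h1]
  exact dg_add_le _ _ le_rfl

/-- the first height is independent of the second line, the direction `u` and `tau` -/
theorem e4 (hs : s.Hyp) : I v.T0 (v.K' ⊔ v.U ⊔ dg v.tau 1) ⊥ = 0 := by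
  have h1 := v.e3 hs
  have h2 := v.e1 hs (w.p2.map (s.fv.iL ⊔ s.fv.iB) ⊔ w.p1.map s.fv.iX ⊔ w.p1.map s.fv.iT)
  rw [v.q2.map_sup, v.q2.map_sup, v.eU] at h2
  have h3 : I v.T0 (v.K' ⊔ v.U ⊔ v.T0') ⊥ = 0 :=
    ind_of h2 le_rfl bot_le le_sup_left (by unfold K' T0'; order)
  have h4 := I_zero_iff_h.mp h3
  have h5 := I_zero_iff_h.mp h1
  rw [sup_bot_eq, h_bot, v.HT0 hs] at h4
  rw [sup_bot_eq, h_bot, v.HT0' hs] at h5
  have a1 := v.tau_le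
  have a2 := v.T0'_le
  have h6 : v.T0' ⊔ v.T0 ⊔ (v.K' ⊔ v.U) = dg v.tau 1 ⊔ v.T0 ⊔ (v.K' ⊔ v.U) := by order
  have h7 : h (v.T0' ⊔ v.T0) (v.K' ⊔ v.U) = h (dg v.tau 1 ⊔ v.T0) (v.K' ⊔ v.U) := by
    unfold h
    rw [h6]
  rw [h_chain, h_chain, h5] at h7
  have h8 : v.T0' ⊔ (v.K' ⊔ v.U) = v.K' ⊔ v.U ⊔ v.T0' := sup_comm _ _
  rw [h8, h4] at h7
  have h9 := FV.h_dg1 v.tau (v.K' ⊔ v.U)
  refine ind_of_h ?_
  rw [h_bot, sup_bot_eq, v.HT0 hs]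
  have h10 : dg v.tau 1 ⊔ (v.K' ⊔ v.U) = v.K' ⊔ v.U ⊔ dg v.tau 1 := sup_comm _ _
  rw [h10] at h7
  linarith

/-- `tau` is independent of the first star -/
theorem e5 (hs : s.Hyp) : I (dg v.tau 1) (v.K ⊔ v.U ⊔ v.T0) ⊥ = 0 := by
  have h2 := v.e1' hs (w.p2.map (s.fv.iL ⊔ s.fv.iB) ⊔ w.p1.map s.fv.iX ⊔ w.p1.map s.fv.iT)
  rw [v.q1.map_sup, v.q1.map_sup] at h2
  have h3 : I v.T0' (v.K ⊔ v.U ⊔ v.T0) ⊥ = 0 :=
    ind_of h2 le_rfl bot_le le_sup_left (by unfold K U T0; order)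
  have h4 := I_zero_iff_h.mp h3
  rw [sup_bot_eq, h_bot, v.HT0' hs] at h4
  refine ind_of_h ?_
  rw [h_bot, sup_bot_eq]
  have a1 := v.T0'_le
  have h5 : h v.T0' (v.K ⊔ v.U ⊔ v.T0) ≤ h (dg v.tau 1) (v.K ⊔ v.U ⊔ v.T0) := by
    have h6 := h_mono (B := v.K ⊔ v.U ⊔ v.T0) a1
    have h7 := h_sup_le v.T0 (dg v.tau 1) (v.K ⊔ v.U ⊔ v.T0)
    have h8 : h v.T0 (v.K ⊔ v.U ⊔ v.T0) = 0 := h_zero (by order)
    linarith
  have h6 := FV.H_dg1 v.tau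
  linarith

/-- `tau` is real -/
theorem Htau (hs : s.Hyp) : H (dg v.tau 1) = 1 := by
  apply le_antisymm (FV.H_dg1 v.tau)
  have h1 := v.T0'_le
  have h3 := v.e1' hs (w.p1.map s.fv.iT)
  have h4 : I v.T0' v.T0 ⊥ = 0 := ind_of h3 le_rfl bot_le le_sup_left (by unfold Zed.T0; order)
  have h5 := I_zero_iff_h.mp h4
  rw [sup_bot_eq, h_bot, v.HT0' hs] at h5
  have h6 := H_chain v.T0 v.T0'
  have h7 := H_sup_le v.T0 (dg v.tau 1)
  have h8 : H (v.T0 ⊔ v.T0') ≤ H (v.T0 ⊔ dg v.tau 1) := H_mono (sup_le le_sup_left h1)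
  linarith [v.HT0 hs]

/-- coordinates of the second line -/
theorem za (i : Fin d) : v.q1.qs (w.p2.qs (s.a i)) = v.q2.qs (w.p2.qs (s.a i)) -
    v.tau * (v.q1.qs (w.p1.qs (s.x i)) - v.q2.qs (w.p2.qs (s.x i))) := by
  have h1 := congrArg v.q1.qs (w.cy i)
  have h2 := congrArg v.q2.qs (w.cy i)
  unfold FV.y at h1 h2
  simp only [map_add, map_mul] at h1 h2
  have h3 := congrArg v.q1.qs w.ct
  have h4 := congrArg v.q2.qs w.ct
  have c1 : v.q1.qs (w.p1.qs (s.fv.a i)) = v.q2.qs (w.p1.qs (s.fv.a i)) := v.ca i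
  have c2 : v.q1.qs (w.p1.qs (s.fv.x i)) = v.q2.qs (w.p1.qs (s.fv.x i)) := v.cu i
  have c3 : v.q1.qs (w.p2.qs (s.fv.x i)) = v.q2.qs (w.p2.qs (s.fv.x i)) := v.cx i
  rw [← h3] at h1
  rw [← h4, ← c1, ← c2] at h2
  rw [c3] at h1
  unfold tau
  have e1 : s.fv.a i = s.a i := rfl
  have e2 : s.fv.x i = s.x i := rfl
  have e3 : s.fv.t = s.t := rfl
  rw [e1, e2, e3] at h1 h2
  linear_combination h2 - h1

/-- the top coordinate of the first line -/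
theorem zc (n : Fin N) : pe (fun j => v.q1.qs (w.p2.qs (s.c n j))) (v.q1.qs (w.p1.qs s.t)) =
    pe (fun j => v.q2.qs (w.p2.qs (s.c n j))) (v.q1.qs (w.p1.qs s.t) + v.tau) -
    pe (fun j => v.q1.qs (w.p1.qs (s.c n j))) (v.q1.qs (w.p1.qs s.t) + v.tau) +
    pe (fun j => v.q1.qs (w.p1.qs (s.c n j))) (v.q1.qs (w.p1.qs s.t)) := by
  have h1 := congrArg v.q1.qs (w.cz n)
  have h2 := congrArg v.q2.qs (w.cz n)
  rw [s.z_eq, pe_map, pe_map, pe_map, pe_map] at h1 h2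
  have h3 : w.p1.qs s.t = w.p2.qs s.t := w.ct
  have h5 : (fun j => v.q2.qs (w.p1.qs (s.c n j))) = fun j => v.q1.qs (w.p1.qs (s.c n j)) := funext fun j => (v.cc n j).symm
  rw [← h3] at h1 h2
  rw [h5] at h2
  have h6 : v.q1.qs (w.p1.qs s.t) + v.tau = v.q2.qs (w.p1.qs s.t) := by
    unfold tau
    ring
  rw [h6]
  linear_combination h2 - h1

end Zed

end VB

end

end Pool.Agent.Helper50.VC
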