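import Pool.Agent.Helper50.VC.SepT

/-! Exact entropy calculus: coefficients of polynomials in a real variable do not depend on independent data, at depth
`θ`. -/

set_option autoImplicit false

namespace Pool.Agent.Helper50.VC

open Pool.Agent.Helper31.EC QS Pool.Agent.Helper38.NS Pool.Agent.Helper80.MX

noncomputable section

/-- the coefficients are functions of the common base at depth `θ` -/
theorem coeff_freeT {S : Sp} {θ : ℝ} (hθ : θ ≤ 1) {k : ℕ} {ι : Type} [Fintype ι] (f : ι → QS S)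
    (T : S.L) (Φ : Fin (k + 1) → QS S) (g s : QS S) (hΦ : vd Φ 1 ≤ vd f 1 ⊔ T) (hg : dg g 1 ≤ dg s 1 ⊔ vd f 1)
    (e : g - pe Φ s ∈ Id S θ) (hs : h (dg s 1) (vd f 1 ⊔ T) = 1) (a : Fin (k + 1)) : dg (Φ a) θ ≤ vd f 1 := by
  classical
  have v1 : vd (Sum.elim Φ f) 1 = vd Φ 1 ⊔ vd f 1 := vd_sum _ _ _
  obtain ⟨C⟩ := exists_CQ (Sum.elim Φ f) (k + 1)
  have cΦ : ∀ i a, (C.p i).qs (Φ a) = (C.p 0).qs (Φ a) := fun i a => C.com i 0 (Sum.inl a)
  have cf : ∀ i a, (C.p i).qs (f a) = (C.p 0).qs (f a) := fun i a => C.com i 0 (Sum.inr a)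
  have cfv : ∀ i, (C.p i).map (vd f 1) = (C.p 0).map (vd f 1) := by
    intro i
    rw [← Pj.qs_vd, ← Pj.qs_vd]
    congr 1
    funext a
    exact cf i a
  have hs1 : h (dg s 1) (vd (Sum.elim Φ f) 1) = 1 := by
    apply le_antisymm (h_dg_le_one _ _)
    refine hs.ge.trans (h_anti ?_)
    rw [v1]
    exact sup_le hΦ le_sup_left
  have r1 := C.rl_one s hs1
  obtain ⟨X, hX⟩ : ∃ X : Fin (k + 1) → QS C.W, X = fun i => (C.p i.succ).qs s := ⟨_, rfl⟩
  have r2 : Rl X C.v := by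
    rw [hX]
    exact r1.comp Fin.succ (Fin.succ_injective _)
  have uX : IsUnit (Matrix.vandermonde X).det := r2.isUnit_vandermonde
  obtain ⟨F, hF⟩ : ∃ F, F = (C.p 0).map (vd f 1) := ⟨_, rfl⟩
  have hv : C.v = (C.p 0).map (vd Φ 1) ⊔ F := by
    show (C.p 0).map (vd (Sum.elim Φ f) 1) = _
    rw [v1, Pj.map_sup, hF]
  -- the coefficients from the copies
  obtain ⟨E, hE⟩ : ∃ E : Fin (k + 1) → QS C.W, E = (Matrix.vandermonde X)⁻¹.mulVec (fun i => (C.p i.succ).qs g) :=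
    ⟨_, rfl⟩
  have k0 : ∀ a, E a - (C.p 0).qs (Φ a) ∈ Id C.W θ := by
    intro a
    have e1 : ∀ i : Fin (k + 1), (C.p i.succ).qs g - (Matrix.vandermonde X).mulVec (fun a => (C.p 0).qs (Φ a)) i ∈
        Id C.W θ := by
      intro i
      have e2 := ((C.p i.succ).qs_mem_Id hθ).mpr e
      rw [map_sub, pe_map] at e2
      have h4 : (fun a => (C.p i.succ).qs (Φ a)) = fun a => (C.p 0).qs (Φ a) := by
        funext a
        exact cΦ _ a
      rw [h4] at e2
      rw [← pe_eq_mulVec, hX]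
      exact e2
    have e3 : (fun a => (C.p 0).qs (Φ a)) = (Matrix.vandermonde X)⁻¹.mulVec
        ((Matrix.vandermonde X).mulVec (fun a => (C.p 0).qs (Φ a))) := by
      rw [Matrix.mulVec_mulVec, Matrix.nonsing_inv_mul _ uX, Matrix.one_mulVec]
    have e4 := congrFun e3 a
    beta_reduce at e4
    rw [e4, hE]
    show ∑ i, (Matrix.vandermonde X)⁻¹ a i * (C.p i.succ).qs g -
      ∑ i, (Matrix.vandermonde X)⁻¹ a i * (Matrix.vandermonde X).mulVec (fun a => (C.p 0).qs (Φ a)) i ∈ _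
    rw [← Finset.sum_sub_distrib]
    apply (Id C.W θ).sum_mem
    intro i _
    rw [← mul_sub]
    exact (Id C.W θ).mul_mem_left _ (e1 i)
  have k1 : ∀ a, dg (E a) 1 ≤ vd X 1 ⊔ F := by
    intro a
    rw [hE]
    show dg (∑ i, (Matrix.vandermonde X)⁻¹ a i * (C.p i.succ).qs g) 1 ≤ _
    apply (Kn C.W 1 le_rfl _).sum_mem
    intro i _
    apply (Kn C.W 1 le_rfl _).mul_mem
    · apply inv_mem _ le_rfl _ _ uX
      intro i j
      rw [Matrix.vandermonde_apply]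
      exact (Kn C.W 1 le_rfl (vd X 1 ⊔ F)).pow_mem (x := X i) ((dg_le_vd X 1 i).trans le_sup_left) _
    · rw [mem_Kn, (C.p i.succ).qs_dg]
      refine ((C.p i.succ).map_mono hg).trans ?_
      rw [Pj.map_sup, cfv, ← (C.p i.succ).qs_dg, ← hF]
      apply sup_le_sup_right
      have := dg_le_vd X 1 i
      rw [hX] at this ⊢
      exact this
  have k2 : ∀ a, dg ((C.p 0).qs (Φ a)) 1 ≤ (C.p 0).map T ⊔ F := by
    intro a
    rw [(C.p 0).qs_dg, hF, ← Pj.map_sup]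
    apply (C.p 0).map_mono
    refine (dg_le_vd Φ 1 a).trans (hΦ.trans ?_)
    rw [sup_comm]
  have hI : I (vd X 1) ((C.p 0).map T) F = 0 := by
    have h1 : I (vd X 1) ((C.p 0).map T) C.v = 0 := by
      have h2 := C.I_sup (s := Finset.univ.erase 0) (t := {0}) (by simp) (fun l => if l = 0 then T else dg s 1)
      refine I_zero_mono h2 ?_ ?_
      · refine le_trans ?_ le_sup_left
        rw [vd_le]
        intro i
        have h3 := Finset.le_sup (f := fun i => (C.p i).map (if i = 0 then T else dg s 1))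
          (Finset.mem_erase.mpr ⟨Fin.succ_ne_zero i, Finset.mem_univ _⟩ : i.succ ∈ Finset.univ.erase (0 : Fin (k + 1 + 1)))
        rw [if_neg (Fin.succ_ne_zero i)] at h3
        rw [hX]
        show dg ((C.p i.succ).qs s) 1 ≤ _
        rw [(C.p i.succ).qs_dg]
        exact h3
      · refine le_trans ?_ le_sup_left
        rw [Finset.sup_singleton, if_pos rfl]
    apply le_antisymm _ (I_nonneg _ _ _)
    rw [I_eq]
    have h2 := I_zero_iff_h.mp h1
    have h3 : h (vd X 1) ((C.p 0).map T ⊔ C.v) ≤ h (vd X 1) ((C.p 0).map T ⊔ F) := by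
      apply h_anti
      apply sup_le_sup_left
      rw [hv]
      exact le_sup_right
    have h4 : h (vd X 1) C.v = Fintype.card (Fin (k + 1)) := r2
    have h5 := h_sd_le X Finset.univ F
    rw [sd_univ, Finset.card_univ] at h5
    linarith
  have h1 : dg ((C.p 0).qs (Φ a)) θ ≤ F := by
    refine le_of_markov ?_ ((dg_mono _ hθ).trans (k2 a)) hI
    rw [← dg_eq_of_sub_mem (k0 a) le_rfl hθ]
    exact (dg_mono _ hθ).trans (k1 a)
  rw [(C.p 0).qs_dg, hF] at h1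
  exact (C.p 0).map_le.mp h1

/-- the coefficients may be taken to be functions of the common base -/
theorem coeff_freeT' {S : Sp} {θ : ℝ} (h0 : 0 ≤ θ) (hθ : θ ≤ 1) {k : ℕ} {ι : Type} [Fintype ι] (f : ι → QS S)
    (T : S.L) (Φ : Fin (k + 1) → QS S) (g s : QS S) (hΦ : vd Φ 1 ≤ vd f 1 ⊔ T) (hg : dg g 1 ≤ dg s 1 ⊔ vd f 1)
    (e : g - pe Φ s ∈ Id S θ) (hs : h (dg s 1) (vd f 1 ⊔ T) = 1) :
    ∃ Φ' : Fin (k + 1) → QS S, vd Φ' 1 ≤ vd f 1 ∧ g - pe Φ' s ∈ Id S θ := by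
  refine ⟨fun a => qfl (Φ a) θ h0, ?_, ?_⟩
  · rw [vd_le]
    intro a
    exact (qfl_dg_le (Φ a) h0 hθ 1).trans (coeff_freeT hθ f T Φ g s hΦ hg e hs a)
  · have h1 : g - pe (fun a => qfl (Φ a) θ h0) s = (g - pe Φ s) + ∑ a : Fin (k + 1), (Φ a - qfl (Φ a) θ h0) *
        s ^ (a : ℕ) := by
      unfold pe
      have h2 : ∑ a : Fin (k + 1), (Φ a - qfl (Φ a) θ h0) * s ^ (a : ℕ) = ∑ a : Fin (k + 1), Φ a * s ^ (a : ℕ) -
          ∑ a : Fin (k + 1), qfl (Φ a) θ h0 * s ^ (a : ℕ) := by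
        rw [← Finset.sum_sub_distrib]
        exact Finset.sum_congr rfl fun a _ => by ring
      rw [h2]
      ring
    rw [h1]
    exact (Id S θ).add_mem e ((Id S θ).sum_mem fun a _ => (Id S θ).mul_mem_right _ (sub_qfl_mem (Φ a) h0 hθ))

/-- functions of depth `θ` come from functions with the same knowledge -/
theorem lift_dp {S : Sp} {θ : ℝ} (h0 : 0 < θ) (hθ : θ ≤ 1) {A : S.L} (f : QS (dp S θ h0)) (hf : dg f 1 ≤ dL θ h0 A) :
    ∃ g : QS S, dQ θ h0 hθ g = f ∧ dg g 1 ≤ A := by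
  obtain ⟨g, hg⟩ := dQ_surj θ h0 hθ f
  refine ⟨qfl g θ h0.le, ?_, ?_⟩
  · rw [← hg]
    have h1 := sub_qfl_mem g h0.le hθ
    rw [← dQ_eq_zero θ h0 hθ, map_sub, sub_eq_zero] at h1
    exact h1.symm
  · refine (qfl_dg_le g h0.le hθ 1).trans ?_
    rw [← hg, dQ_dg θ h0 hθ g le_rfl, mul_one, dL_le θ h0] at hf
    exact hf

end

end Pool.Agent.Helper50.VC
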