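import Pool.Agent.Helper38.NS.AbsU
import Pool.Agent.Helper31.EC.Cpy

/-! Exact entropy calculus: every information consists of the digits of finitely many functions; absorption of
polynomial noises with arbitrary bases. -/

set_option autoImplicit false

namespace Pool.Agent.Helper50.VC

open Finset Filter Topology Pool.Agent.Helper69.RK
open Pool.Agent.Helper31.EC QS Sp Pool.Agent.Helper38.NS

noncomputable section

open Classical in
/-- cells of a partition which meet a cell of the base -/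
def celS (F : FSp) (A : Setoid F.Ω) (c : Quotient F.Z) : Finset (Quotient A) :=
  ((univ : Finset F.Ω).filter (fun ω' => F.μ ω' ≠ 0 ∧ Quotient.mk F.Z ω' = c)).image (Quotient.mk A)

open Classical in
/-- the number of the cell of a point -/
def idxS (F : FSp) (A : Setoid F.Ω) (ω : F.Ω) : ℕ :=
  (celS F A (Quotient.mk F.Z ω)).toList.idxOf (Quotient.mk A ω)

theorem mem_celS (F : FSp) (A : Setoid F.Ω) {ω : F.Ω} (h : F.μ ω ≠ 0) :
    Quotient.mk A ω ∈ celS F A (Quotient.mk F.Z ω) := by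
  classical
  unfold celS
  exact Finset.mem_image.mpr ⟨ω, Finset.mem_filter.mpr ⟨Finset.mem_univ _, h, rfl⟩, rfl⟩

theorem idxS_lt (F : FSp) (A : Setoid F.Ω) {ω : F.Ω} (h : F.μ ω ≠ 0) : idxS F A ω < nv F A ω := by
  classical
  have h1 : (celS F A (Quotient.mk F.Z ω)).toList.length = nv F A ω := by
    rw [Finset.length_toList]
    unfold nv nvf celS
    apply congrArg Finset.card
    ext x
    simp only [Finset.mem_image, Finset.mem_filter]
  rw [← h1]
  unfold idxS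
  rw [List.idxOf_lt_length_iff, Finset.mem_toList]
  exact mem_celS F A h

theorem idxS_eq (F : FSp) (A : Setoid F.Ω) {ω ω' : F.Ω} (hZ : F.Z ω ω') (hA : A ω ω') : idxS F A ω = idxS F A ω' := by
  classical
  have h1 : Quotient.mk F.Z ω = Quotient.mk F.Z ω' := Quotient.sound hZ
  have h2 : Quotient.mk A ω = Quotient.mk A ω' := Quotient.sound hA
  unfold idxS
  rw [h1, h2]

theorem idxS_inj (F : FSp) (A : Setoid F.Ω) {ω ω' : F.Ω} (h : F.μ ω ≠ 0) (h' : F.μ ω' ≠ 0) (hZ : F.Z ω ω')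
    (he : idxS F A ω = idxS F A ω') : A ω ω' := by
  classical
  have h1 : Quotient.mk F.Z ω = Quotient.mk F.Z ω' := Quotient.sound hZ
  have m1 := mem_celS F A h
  have m2 := mem_celS F A h'
  unfold idxS at he
  rw [← h1] at he m2
  rw [← Finset.mem_toList] at m1 m2
  exact Quotient.exact ((List.idxOf_inj m1).mp he)

/-- digits -/
theorem digits_eq {M a b : ℕ} : ∀ m : ℕ, (∀ j < m, a / M ^ j % M = b / M ^ j % M) → a % M ^ m = b % M ^ m := by
  intro m
  induction m with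
  | zero => intro _; rw [pow_zero, Nat.mod_one, Nat.mod_one]
  | succ m ih =>
    intro h
    rw [Nat.mod_pow_succ, Nat.mod_pow_succ, ih fun j hj => h j (Nat.lt_succ_of_lt hj), h m (Nat.lt_succ_self m)]

/-- EVERY INFORMATION IS THE DIGITS OF FINITELY MANY FUNCTIONS -/
theorem exists_gen {S : Sp} (A : S.L) : ∃ (m : ℕ) (g : Fin m → QS S), vd g 1 = A := by
  classical
  induction A using Sp.cl_ind with
  | h A =>
  obtain ⟨C, hC⟩ := A.2
  obtain ⟨m, hm⟩ := exists_nat_ge (2 * C)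
  obtain ⟨M, hM⟩ : ∃ M : ℕ → ℕ, ∀ k, M k = ⌊(2 : ℝ) ^ (S.F k).n⌋₊ := ⟨_, fun _ => rfl⟩
  have hMle : ∀ k, (M k : ℝ) ≤ 2 ^ (S.F k).n := fun k => by
    rw [hM]
    exact Nat.floor_le (by positivity)
  obtain ⟨f, hf⟩ : ∃ f : Fin m → TR S, ∀ j k ω, TR.ev (f j) k ω =
      (((idxS (S.F k) (A.1 k) ω / M k ^ (j : ℕ) % M k : ℕ) : ℝ)) * S.dl 1 k := by
    refine ⟨fun j => ⟨fun k ω => (((idxS (S.F k) (A.1 k) ω / M k ^ (j : ℕ) % M k : ℕ) : ℝ)) * S.dl 1 k, fun _ => 1,
      S.Sub_const zero_le_one, ?_⟩, fun _ _ _ => rfl⟩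
    refine Eventually.of_forall fun k ω _ => ?_
    have h0 := S.dl_pos 1 k
    rw [abs_of_nonneg (mul_nonneg (Nat.cast_nonneg _) h0.le)]
    have hMpos : 0 < M k := by
      rw [hM]
      apply Nat.floor_pos.mpr
      exact Real.one_le_rpow (by norm_num) (S.F k).pos.le
    have h1 : (((idxS (S.F k) (A.1 k) ω / M k ^ (j : ℕ) % M k : ℕ) : ℝ)) ≤ 2 ^ (S.F k).n := by
      refine le_trans ?_ (hMle k)
      exact_mod_cast (Nat.mod_lt _ hMpos).le
    have h2 : (2 : ℝ) ^ (S.F k).n * S.dl 1 k = 1 := by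
      unfold Sp.dl
      rw [← Real.rpow_add (by norm_num : (0 : ℝ) < 2), one_mul, add_neg_cancel, Real.rpow_zero]
    calc _ ≤ (2 : ℝ) ^ (S.F k).n * S.dl 1 k := mul_le_mul_of_nonneg_right h1 h0.le
      _ = 1 := h2
  refine ⟨m, fun j => QS.mk (f j), ?_⟩
  have e1 : vd (fun j => QS.mk (f j)) 1 = (TR.vec f).dg 1 := by
    rw [TR.vec_dg_eq]
    unfold vd
    apply Finset.sup_congr rfl
    intro j _
    exact dg_mk _ le_rfl
  rw [e1]
  apply le_antisymm
  · rw [TR.vec_dg_le_iff]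
    intro j
    refine TR.dg_le_cl (f j) 1 A (fun _ _ => True) Typ_true (fun _ => 1) (S.Sub_const zero_le_one) ?_
    refine Eventually.of_forall fun k ω ω' _ _ _ _ hZ hA => ?_
    rw [hf, hf, idxS_eq (S.F k) (A.1 k) hZ hA, sub_self, abs_zero, one_mul]
    exact (S.dl_pos 1 k).le
  · show cl A ≤ io ((TR.vec f).cellv 1)
    rw [io_eq ((TR.vec f).bdd 1), cl_le, Inf.le_def]
    apply Tendsto.congr' _ tendsto_const_nhds
    have hbig : ∀ᶠ k in UF, (2 : ℝ) ≤ (S.F k).n := S.lim.eventually_ge_atTop 2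
    filter_upwards [hC, hbig] with k hk hn
    unfold rt
    rw [(S.F k).e_zero, zero_div]
    intro ω ω' h1 h2 h3
    obtain ⟨h3, h4⟩ := h3
    apply idxS_inj (S.F k) (A.1 k) h1 h2 h4
    have hMpos : 0 < M k := by
      rw [hM]
      apply Nat.floor_pos.mpr
      exact Real.one_le_rpow (by norm_num) (S.F k).pos.le
    -- the digits agree
    have h5 : ∀ j < m, idxS (S.F k) (A.1 k) ω / M k ^ j % M k = idxS (S.F k) (A.1 k) ω' / M k ^ j % M k := by
      intro j hj
      have h6 : (TR.vec f).cellv 1 k ω = (TR.vec f).cellv 1 k ω' := h3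
      have h7 := congrFun h6 ⟨j, hj⟩
      have h8 : ∀ w, (TR.vec f).cellv 1 k w ⟨j, hj⟩ = ((idxS (S.F k) (A.1 k) w / M k ^ j % M k : ℕ) : ℤ) := by
        intro w
        show ⌊TR.ev (f ⟨j, hj⟩) k w / S.dl 1 k⌋ = _
        rw [hf, mul_div_assoc, div_self (S.dl_pos 1 k).ne', mul_one]
        exact Int.floor_natCast _
      rw [h8, h8] at h7
      exact_mod_cast h7
    have h9 := digits_eq m h5
    have h10 : ∀ w, (S.F k).μ w ≠ 0 → idxS (S.F k) (A.1 k) w < M k ^ m := by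
      intro w hw
      have a1 := idxS_lt (S.F k) (A.1 k) hw
      have a2 := hk w hw
      have a3 : (2 : ℝ) ^ (C * (S.F k).n) ≤ (M k : ℝ) ^ m := by
        have b1 : (2 : ℝ) ^ ((S.F k).n / 2) ≤ M k := by
          have c1 : (2 : ℝ) ^ (S.F k).n - 1 < M k := by
            rw [hM]
            exact Nat.sub_one_lt_floor _
          have c2 : (2 : ℝ) ^ (S.F k).n = 2 ^ ((S.F k).n / 2) * 2 ^ ((S.F k).n / 2) := by
            rw [← Real.rpow_add (by norm_num : (0 : ℝ) < 2)]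
            congr 1
            ring
          have c3 : (2 : ℝ) ≤ 2 ^ ((S.F k).n / 2) := by
            have d1 : (2 : ℝ) = 2 ^ (1 : ℝ) := (Real.rpow_one 2).symm
            calc (2 : ℝ) = 2 ^ (1 : ℝ) := d1
              _ ≤ 2 ^ ((S.F k).n / 2) := Real.rpow_le_rpow_of_exponent_le (by norm_num) (by linarith)
          rw [c2] at c1
          nlinarith
        calc (2 : ℝ) ^ (C * (S.F k).n) ≤ 2 ^ ((m : ℝ) * ((S.F k).n / 2)) := by
              apply Real.rpow_le_rpow_of_exponent_le (by norm_num)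
              nlinarith
          _ = (2 ^ ((S.F k).n / 2)) ^ m := by
              rw [mul_comm, Real.rpow_mul (by norm_num), Real.rpow_natCast]
          _ ≤ (M k : ℝ) ^ m := pow_le_pow_left₀ (by positivity) b1 m
      have a4 : (idxS (S.F k) (A.1 k) w : ℝ) < (M k : ℝ) ^ m := by
        have b1 : (idxS (S.F k) (A.1 k) w : ℝ) < nv (S.F k) (A.1 k) w := by exact_mod_cast a1
        linarith
      exact_mod_cast a4
    rw [Nat.mod_eq_of_lt (h10 ω h1), Nat.mod_eq_of_lt (h10 ω' h2)] at h9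
    exact h9

/-- ABSORPTION of polynomial real noises with arbitrary informations as bases -/
theorem absB {W R : Sp} {ν : Type} [Fintype ν] {m : ℕ} {z : ν → QS W} {B : W.L} {G : R.L} {c : ν → Fin m → QS R}
    {ρ : ℝ} (hρ : ρ ≤ 1) (hN : NRu W z B ρ) (pK : Pj R W) (z0 : ν → QS R) (τ : QS R) (hX : pK.map B ≤ G)
    (hc : ∀ i j, dg (c i j) 1 ≤ G) (e : ∀ i, pK.qs (z i) = z0 i + ∑ j : Fin m, c i j * τ ^ ((j : ℕ) + 1))
    (i1 : I (pK.map (vd z 1)) (G ⊔ dg τ 1) (pK.map B) = 0) (r0 : Helper31.EC.h (dg τ 1) (vd z0 1 ⊔ G) = 1) :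
    ∀ i j, c i j ∈ Id R ρ := by
  obtain ⟨n1, q, rfl⟩ := exists_gen B
  obtain ⟨n2, g, rfl⟩ := exists_gen G
  exact absU hρ hN pK z0 τ hX hc e i1 r0

end

end Pool.Agent.Helper50.VC
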