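import Pool.Agent.Helper50.VC.SloT
import Pool.Agent.Helper50.VC.Rct

/-! Exact entropy calculus: slopes of curved lines with vector valued top coordinates at depth `θ`: if along every
other line of a star the coefficients are polynomials of the height at depth `θ` (`H1V`), then at depth `θ` all
coefficients are polynomials of the base point with coefficients known to the directions. -/

set_option autoImplicit false

namespace Pool.Agent.Helper50.VC

open Pool.Agent.Helper31.EC QS Pool.Agent.Helper38.NS Pool.Agent.Helper99.EC Pool.Agent.Helper96.FLT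
open Pool.Agent.Helper50.CV (comp_assoc')

noncomputable section

namespace VB

variable {S : Sp} {d k N : ℕ}

/-- the base point -/
def q (s : VB S d k N) : Fin (d + 1) → QS S := Fin.cons s.t s.fv.y

/-- the direction of the base line -/
def v (s : VB S d k N) : Fin (d + 1) → QS S := Fin.cons 1 s.x

/-- the base line -/
def av (s : VB S d k N) : Fin (d + 1) → QS S := Fin.cons 0 s.a

theorem q_eq (s : VB S d k N) (i : Fin (d + 1)) : s.q i = s.av i + s.t * s.v i := by
  induction i using Fin.cases with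
  | zero => show s.t = 0 + s.t * 1; ring
  | succ i => rfl

/-- the point -/
def fQ (s : VB S d k N) : Fin (d + 1) ⊕ Fin N → QS S := Sum.elim s.q s.fv.z

/-- information of the point -/
def iP (s : VB S d k N) : S.L := s.fv.iT ⊔ (s.fv.iY ⊔ s.fv.iZ)

theorem vd_q (s : VB S d k N) : vd s.q 1 = s.fv.iT ⊔ s.fv.iY := vd_cons _ _ _

theorem vd_fQ (s : VB S d k N) : vd s.fQ 1 = s.iP := by
  unfold fQ iP
  rw [vd_sum, vd_q, sup_assoc]
  rfl

/-- two lines of a star -/
def star2 (s : VB S d k N) {W : Sp} {ι : Type} [Fintype ι] [DecidableEq ι] {p : ι → Pj W S} (hp : IsStar s.fQ p)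
    {i j : ι} (hij : i ≠ j) : s.fv.Star where
  D := W
  p1 := p i
  p2 := p j
  cy l := hp.com i j (Sum.inl l.succ)
  cz n := hp.com i j (Sum.inr n)
  ct := hp.com i j (Sum.inl 0)
  ci x y := by
    have h1 := hp.I_sup (s := {i}) (t := {j}) (by simpa using hij) i (fun l => if l = i then x else y)
    rw [Finset.sup_singleton, Finset.sup_singleton, if_pos rfl, if_neg hij.symm, s.vd_fQ] at h1
    exact h1

/-- directions of a star -/
def drs (s : VB S d k N) {W : Sp} {ι : Type} (p : ι → Pj W S) (a : ι × Fin d) : QS W := (p a.1).qs (s.x a.2)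

theorem vd_drs (s : VB S d k N) {W : Sp} {ι : Type} [Fintype ι] (p : ι → Pj W S) :
    vd (s.drs p) 1 = Finset.univ.sup fun i => (p i).map s.fv.iX := by
  apply le_antisymm
  · rw [vd_le]
    intro a
    refine le_trans ?_ (Finset.le_sup (Finset.mem_univ a.1))
    show dg ((p a.1).qs (s.x a.2)) 1 ≤ _
    rw [(p a.1).qs_dg]
    exact (p a.1).map_mono (dg_le_vd s.x 1 a.2)
  · apply Finset.sup_le
    intro i _
    have h1 : s.fv.iX = vd s.x 1 := rfl
    rw [h1, ← (p i).qs_vd, vd_le]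
    intro j
    exact dg_le_vd (s.drs p) 1 (i, j)

theorem Hyp.sP {s : VB S d k N} (hs : s.Hyp) : I s.fv.iX s.iP ⊥ = 0 := hs.s1

theorem drs_ind (s : VB S d k N) (hs : s.Hyp) {W : Sp} {ι : Type} [Fintype ι] {p : ι → Pj W S}
    (hp : IsStar s.fQ p) (i0 : ι) : I (vd (s.drs p) 1) ((p i0).map (vd s.fQ 1)) ⊥ = 0 := by
  rw [s.vd_drs p]
  apply hp.I_free i0
  intro i
  rw [s.vd_fQ]
  exact hs.sP

/-- the point is real over the directions -/
theorem q_rl (s : VB S d k N) (hs : s.Hyp) (hq : Rl s.q ⊥) {W : Sp} {ι : Type} [Fintype ι] {p : ι → Pj W S}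
    (hp : IsStar s.fQ p) (i0 : ι) : Rl (fun j => (p i0).qs (s.q j)) (vd (s.drs p) 1) := by
  have h1 : I (vd (fun j => (p i0).qs (s.q j)) 1) (vd (s.drs p) 1) ⊥ = 0 := by
    rw [I_comm]
    refine I_zero_mono (s.drs_ind hs hp i0) le_sup_left ?_
    refine le_trans ?_ le_sup_left
    rw [(p i0).qs_vd]
    apply (p i0).map_mono
    rw [vd_le]
    intro j
    exact dg_le_vd s.fQ 1 (Sum.inl j)
  have h2 := I_zero_iff_h.mp h1
  have h3 := hq.pull (p i0)
  rw [(p i0).map_bot] at h3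
  unfold Rl at h3 ⊢
  rw [sup_bot_eq] at h2
  rw [h2]
  exact h3

/-- the frame of a star -/
def mat (s : VB S d k N) {W : Sp} (p : Fin (d + 1) → Pj W S) : Matrix (Fin (d + 1)) (Fin (d + 1)) (QS W) :=
  Matrix.of fun i j => (p i).qs (s.v j)

theorem mat_zero (s : VB S d k N) {W : Sp} (p : Fin (d + 1) → Pj W S) (i : Fin (d + 1)) : s.mat p i 0 = 1 := by
  show (p i).qs 1 = 1
  rw [map_one]

theorem mat_le (s : VB S d k N) {W : Sp} (p : Fin (d + 1) → Pj W S) (i j : Fin (d + 1)) :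
    dg (s.mat p i j) 1 ≤ vd (s.drs p) 1 := by
  induction j using Fin.cases with
  | zero =>
    rw [mat_zero]
    exact (Kn W 1 le_rfl _).one_mem
  | succ j => exact dg_le_vd (s.drs p) 1 (i, j)

/-- coordinates of the line through the base point -/
theorem line_eq (s : VB S d k N) {W : Sp} {p : Fin (d + 1) → Pj W S} (hp : IsStar s.fQ p) (i0 j : Fin (d + 1))
    (l : Fin d) : (p j).qs (s.a l) = (p i0).qs (s.q l.succ) - (p i0).qs (s.q 0) * s.mat p j l.succ := by
  have hc : ∀ l, (p i0).qs (s.q l) = (p j).qs (s.q l) := fun l => hp.com i0 j (Sum.inl l)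
  rw [hc, hc]
  show _ = (p j).qs (s.fv.y l) - (p j).qs s.fv.t * (p j).qs (s.fv.x l)
  unfold FV.y
  rw [map_add, map_mul]
  show _ = (p j).qs (s.a l) + _ - _
  ring

theorem line_le (s : VB S d k N) {W : Sp} {p : Fin (d + 1) → Pj W S} (hp : IsStar s.fQ p) (i0 j : Fin (d + 1)) :
    (p j).map s.fv.iL ≤ vd (fun l => (p i0).qs (s.q l) - (p i0).qs (s.q 0) * s.mat p j l) 1 ⊔ vd (s.drs p) 1 := by
  unfold FV.iL
  rw [(p j).map_sup]
  apply sup_le
  · refine le_trans ?_ le_sup_left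
    rw [← (p j).qs_vd, vd_le]
    intro l
    show dg ((p j).qs (s.a l)) 1 ≤ _
    rw [s.line_eq hp i0 j l]
    exact dg_le_vd (fun l => (p i0).qs (s.q l) - (p i0).qs (s.q 0) * s.mat p j l) 1 l.succ
  · refine le_trans ?_ le_sup_right
    rw [s.vd_drs p]
    exact Finset.le_sup (f := fun i => (p i).map s.fv.iX) (Finset.mem_univ j)

/-- statement (H1) for vectors at depth `θ`: along the second line of a star the coefficients of the first line are
polynomials of the height -/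
def H1V (s : VB S d k N) (θ : ℝ) : Prop := ∀ w : s.fv.Star, ∃ (E : Sp) (p : Pj E w.D)
  (Ψ : Fin N → Fin k → Fin (2 * k + 1) → QS E),
  (∀ n m, vd (Ψ n m) 1 ≤ p.map (w.p2.map s.fv.iL ⊔ w.p1.map s.fv.iX)) ∧
  ∀ n m, p.qs (w.p1.qs (s.c n m.succ)) - pe (Ψ n m) (p.qs (w.p1.qs s.t)) ∈ Id E θ

/-- the coefficients of one line along another one -/
def PrQ (s : VB S d k N) (θ : ℝ) {W : Sp} {ι : Type} (p : ι → Pj W S) (i j : ι) (V : Sp) (r : Pj V W) : Prop :=
  ∃ Ψ : Fin N → Fin k → Fin (2 * k + 1) → QS V,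
    (∀ n m, vd (Ψ n m) 1 ≤ r.map ((p j).map s.fv.iL ⊔ (p i).map s.fv.iX)) ∧
    ∀ n m, r.qs ((p i).qs (s.c n m.succ)) - pe (Ψ n m) (r.qs ((p i).qs s.t)) ∈ Id V θ

theorem PrQ.up {s : VB S d k N} {θ : ℝ} (hθ : θ ≤ 1) {W : Sp} {ι : Type} {p : ι → Pj W S} {i j : ι} {V V' : Sp}
    {r : Pj V W} (q : Pj V' V) (h : s.PrQ θ p i j V r) : s.PrQ θ p i j V' (q.comp r) := by
  obtain ⟨Ψ, a1, a2⟩ := h
  refine ⟨fun n m l => q.qs (Ψ n m l), fun n m => ?_, fun n m => ?_⟩
  · rw [q.qs_vd, Pj.comp_map]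
    exact q.map_mono (a1 n m)
  · have b1 := (q.qs_mem_Id hθ).mpr (a2 n m)
    rw [map_sub, pe_map] at b1
    rw [Pj.comp_qs, Pj.comp_qs]
    exact b1

theorem exists_prQ (s : VB S d k N) {θ : ℝ} (hH : s.H1V θ) {W : Sp} {ι : Type} [Fintype ι]
    [DecidableEq ι] {p : ι → Pj W S} (hp : IsStar s.fQ p) {i j : ι} (hij : i ≠ j) (V : Sp) (r : Pj V W) :
    ∃ (V' : Sp) (q : Pj V' V), s.PrQ θ p i j V' (q.comp r) := by
  obtain ⟨E, q, Ψ, a1, a2⟩ : ∃ (E : Sp) (q : Pj E V) (Ψ : Fin N → Fin k → Fin (2 * k + 1) → QS E),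
      (∀ n m, vd (Ψ n m) 1 ≤ q.map ((r.comp (p j)).map s.fv.iL ⊔ (r.comp (p i)).map s.fv.iX)) ∧
      ∀ n m, q.qs ((r.comp (p i)).qs (s.c n m.succ)) - pe (Ψ n m) (q.qs ((r.comp (p i)).qs s.t)) ∈ Id E θ :=
    hH (s.star2 (hp.pull r) hij)
  refine ⟨E, q, Ψ, fun n m => ?_, fun n m => ?_⟩
  · have h3 := a1 n m
    rw [Pj.comp_map, Pj.comp_map, ← r.map_sup, ← Pj.comp_map] at h3
    exact h3
  · have h3 := a2 n m
    rw [Pj.comp_qs, Pj.comp_qs] at h3
    rw [Pj.comp_qs, Pj.comp_qs]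
    exact h3

/-- SLOPES ARE POLYNOMIALS at depth `θ`: one coefficient of one line on an extension -/
def SlQ (s : VB S d k N) (θ : ℝ) {W : Sp} (p : Fin (d + 1) → Pj W S) (n : Fin N) (i : Fin (d + 1)) (m : Fin k) (V : Sp)
    (r : Pj V W) : Prop :=
  ∃ P : MvPolynomial (Fin (d + 1)) (QS V), P ∈ PK (r.map (vd (s.drs p) 1)) ∧ P.totalDegree ≤ 2 * k * (d + 1) ∧
    r.qs ((p i).qs (s.c n m.succ)) - MvPolynomial.eval (fun j => r.qs ((p 0).qs (s.q j))) P ∈ Id V θ

theorem SlQ.up {s : VB S d k N} {θ : ℝ} (hθ : θ ≤ 1) {W : Sp} {p : Fin (d + 1) → Pj W S} {n : Fin N}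
    {i : Fin (d + 1)} {m : Fin k} {V V' : Sp} {r : Pj V W} (q : Pj V' V) (h : s.SlQ θ p n i m V r) :
    s.SlQ θ p n i m V' (q.comp r) := by
  obtain ⟨P, a1, a2, a3⟩ := h
  refine ⟨MvPolynomial.map q.qs P, ?_, (totalDegree_map_le _ _).trans a2, ?_⟩
  · rw [Pj.comp_map]
    exact map_PK q a1
  · have b1 := (q.qs_mem_Id hθ).mpr a3
    rw [map_sub, qs_eval] at b1
    have e1 : (fun j => (q.comp r).qs ((p 0).qs (s.q j))) = fun j => q.qs (r.qs ((p 0).qs (s.q j))) :=
      funext fun j => Pj.comp_qs _ _ _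
    rw [Pj.comp_qs, e1]
    exact b1

theorem exists_slQ (s : VB S d k N) (hs : s.Hyp) (hq : Rl s.q ⊥) {θ : ℝ} (h0 : 0 ≤ θ) (hθ : θ ≤ 1) {W : Sp}
    {p : Fin (d + 1) → Pj W S} (hp : IsStar s.fQ p) (hdet : IsUnit (s.mat p).det) (n : Fin N) (i : Fin (d + 1))
    (m : Fin k) (V : Sp) (r : Pj V W) (hr : ∀ j, i ≠ j → s.PrQ θ p i j V r) :
    ∃ (V' : Sp) (q : Pj V' V), s.SlQ θ p n i m V' (q.comp r) := by
  have hU : vd (fun a => r.qs (s.drs p a)) 1 = r.map (vd (s.drs p) 1) := r.qs_vd _ _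
  have hF : dg ((p i).qs (s.c n m.succ)) 1 ≤ (p i).map s.fv.iL := by
    rw [(p i).qs_dg]
    exact (p i).map_mono (hs.hF n m)
  have hl : ∀ j, r.map (vd (fun l => (p 0).qs (s.q l) - (p 0).qs (s.q 0) * s.mat p j l) 1) =
      vd (fun l => r.qs ((p 0).qs (s.q l)) - r.qs ((p 0).qs (s.q 0)) * (s.mat p).map r.qs j l) 1 := by
    intro j
    rw [← r.qs_vd]
    apply vd_congr
    intro l
    rw [map_sub, map_mul]
    rfl
  have hM : ∀ i j, dg ((s.mat p).map r.qs i j) 1 ≤ vd (fun a => r.qs (s.drs p a)) 1 := by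
    intro i j
    rw [Matrix.map_apply, r.qs_dg, hU]
    exact r.map_mono (s.mat_le p i j)
  have hcl : ∀ j, vd (fun l => r.qs ((p 0).qs (s.q l)) - r.qs ((p 0).qs (s.q 0)) * (s.mat p).map r.qs j l) 1 ≤
      vd (fun l => r.qs ((p 0).qs (s.q l))) 1 ⊔ vd (fun a => r.qs (s.drs p a)) 1 := by
    intro j
    rw [vd_le]
    intro l
    apply (Kn V 1 le_rfl _).sub_mem
    · exact (dg_le_vd (fun l => r.qs ((p 0).qs (s.q l))) 1 l).trans le_sup_left
    · apply (Kn V 1 le_rfl _).mul_mem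
      · exact (dg_le_vd (fun l => r.qs ((p 0).qs (s.q l))) 1 0).trans le_sup_left
      · exact (hM j l).trans le_sup_right
  obtain ⟨E, q, P, h1, h2, h3⟩ := poly_slopeT h0 hθ (K := 2 * k) (fun a => r.qs (s.drs p a)) ((s.mat p).map r.qs) hM
    (fun i => by rw [Matrix.map_apply, mat_zero, map_one])
    (by
      have h := hdet.map r.qs
      rw [RingHom.map_det] at h
      exact h)
    (fun j => r.qs ((p 0).qs (s.q j)))
    (by
      rw [hU]
      exact (s.q_rl hs hq hp 0).pull r)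
    (r.qs ((p i).qs (s.c n m.succ)))
    (by
      have e := r.map_mono (s.line_le hp 0 i)
      rw [r.map_sup, hl i, ← hU] at e
      rw [r.qs_dg]
      exact ((r.map_mono hF).trans e).trans (sup_le (hcl i) le_sup_right))
    (fun j => by
      have e := r.map_mono (s.line_le hp 0 j)
      rw [r.map_sup, hl j, ← hU] at e
      by_cases hij : i = j
      · subst hij
        have e1 : dg (r.qs ((p i).qs (s.c n m.succ))) 1 ≤
            vd (fun l => r.qs ((p 0).qs (s.q l)) - r.qs ((p 0).qs (s.q 0)) * (s.mat p).map r.qs i l) 1 ⊔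
              vd (fun a => r.qs (s.drs p a)) 1 := by
          rw [r.qs_dg]
          exact (r.map_mono hF).trans e
        refine ⟨fun n' => if n' = 0 then r.qs ((p i).qs (s.c n m.succ)) else 0, ?_, ?_⟩
        · unfold pe
          rw [Finset.sum_eq_single 0]
          · beta_reduce
            rw [if_pos rfl, Fin.val_zero, pow_zero, mul_one, sub_self]
            exact Ideal.zero_mem _
          · intro n _ hn
            beta_reduce
            rw [if_neg hn, zero_mul]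
          · intro h
            exact absurd (Finset.mem_univ _) h
        · rw [vd_le]
          intro n'
          show dg (if n' = 0 then r.qs ((p i).qs (s.c n m.succ)) else 0) 1 ≤ _
          by_cases hn : n' = 0
          · rw [if_pos hn]
            exact e1
          · rw [if_neg hn]
            exact (Kn V 1 le_rfl _).zero_mem
      · obtain ⟨Ψ, a1, a2⟩ := hr j hij
        have e1 : r.map ((p j).map s.fv.iL ⊔ (p i).map s.fv.iX) ≤
            vd (fun l => r.qs ((p 0).qs (s.q l)) - r.qs ((p 0).qs (s.q 0)) * (s.mat p).map r.qs j l) 1 ⊔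
              vd (fun a => r.qs (s.drs p a)) 1 := by
          rw [r.map_sup]
          apply sup_le e
          refine le_trans ?_ le_sup_right
          rw [hU, s.vd_drs p]
          exact r.map_mono (Finset.le_sup (f := fun i => (p i).map s.fv.iX) (Finset.mem_univ i))
        refine ⟨Ψ n m, ?_, (a1 n m).trans e1⟩
        have e3 : (p 0).qs (s.q 0) = (p i).qs s.t := hp.com 0 i (Sum.inl 0)
        rw [e3]
        exact a2 n m)
  refine ⟨E, q, P, ?_, h2, ?_⟩
  · rw [Pj.comp_map, ← hU]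
    exact h1
  · have e1 : (fun j => (q.comp r).qs ((p 0).qs (s.q j))) = fun j => q.qs (r.qs ((p 0).qs (s.q j))) :=
      funext fun j => Pj.comp_qs _ _ _
    rw [Pj.comp_qs, e1]
    exact h3

/-- SLOPES OF CURVED LINES for vectors at depth `θ`: all coefficients of all lines of a star of `d + 1` lines in
general position are at depth `θ` polynomials in the point with coefficients known to the directions -/
theorem slopesV (s : VB S d k N) (hs : s.Hyp) (hq : Rl s.q ⊥) {θ : ℝ} (h0 : 0 ≤ θ) (hθ : θ ≤ 1) (hH : s.H1V θ)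
    {W : Sp} {p : Fin (d + 1) → Pj W S} (hp : IsStar s.fQ p) (hdet : IsUnit (s.mat p).det) (V : Sp) (r : Pj V W) :
    ∃ (V' : Sp) (q : Pj V' V), ∀ n i m, s.SlQ θ p n i m V' (q.comp r) := by
  classical
  obtain ⟨W1, q1, h1⟩ := ext_all (Finset.univ : Finset (Fin (d + 1) × Fin (d + 1)))
    (fun a V' t => a.1 ≠ a.2 → s.PrQ θ p a.1 a.2 V' (t.comp r))
    (fun a V' t V'' t' h hij => by
      rw [comp_assoc']
      exact (h hij).up hθ t')
    (fun a V' t => by
      by_cases hij : a.1 = a.2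
      · exact ⟨V', Pj.id V', fun h => absurd hij h⟩
      · obtain ⟨V'', t', h⟩ := s.exists_prQ hH hp hij V' (t.comp r)
        exact ⟨V'', t', fun _ => h⟩)
  obtain ⟨W2, q2, h2⟩ := ext_all (Finset.univ : Finset (Fin N × (Fin (d + 1) × Fin k)))
    (fun a V' t => s.SlQ θ p a.1 a.2.1 a.2.2 V' (t.comp (q1.comp r)))
    (fun a V' t V'' t' h => by
      rw [comp_assoc']
      exact h.up hθ t')
    (fun a V' t => by
      obtain ⟨V'', t', h⟩ := s.exists_slQ hs hq h0 hθ hp hdet a.1 a.2.1 a.2.2 V' (t.comp (q1.comp r))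
        (fun j hij => (h1 (a.2.1, j) (Finset.mem_univ _) hij).up hθ t)
      exact ⟨V'', t', h⟩)
  exact ⟨W2, q2.comp q1, fun n i m => h2 (n, (i, m)) (Finset.mem_univ _)⟩

end VB

end

end Pool.Agent.Helper50.VC
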