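import Pool.Agent.Helper50.VC.FreT
import Pool.Agent.Helper50.VC.SloV
import Pool.Agent.Helper4.CV.Wb

/-! Exact entropy calculus: statement (H1) for curved lines with vector valued top coordinates at depth `θ`, from
theorem W for vectors. -/

set_option autoImplicit false

namespace Pool.Agent.Helper50.VC

open Pool.Agent.Helper31.EC QS Pool.Agent.Helper38.NS Pool.Agent.Helper96.FLT Pool.Agent.Helper50.CV
open Pool.Agent.Helper4.CV (rigW)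

noncomputable section

namespace VB

variable {S : Sp} {d k N : ℕ}

/-- the directions of two lines of a star are jointly independent of the point -/
theorem star_XX {s : VB S d k N} (hs : s.Hyp) (w : s.fv.Star) :
    I (w.p1.map s.fv.iX ⊔ w.p2.map s.fv.iX) (w.p2.map (s.fv.iT ⊔ (s.fv.iY ⊔ s.fv.iZ))) ⊥ = 0 := by
  obtain ⟨P, hP⟩ : ∃ P, P = w.p2.map (s.fv.iT ⊔ (s.fv.iY ⊔ s.fv.iZ)) := ⟨_, rfl⟩
  have hP1 : w.p1.map (s.fv.iT ⊔ (s.fv.iY ⊔ s.fv.iZ)) = P := by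
    rw [hP, w.p1.map_sup, w.p1.map_sup, w.p2.map_sup, w.p2.map_sup, w.eT, w.eY, w.eZ]
  have h2 := w.p2.I_map s.fv.iX (s.fv.iT ⊔ (s.fv.iY ⊔ s.fv.iZ)) ⊥
  rw [hs.s1, w.p2.map_bot, ← hP] at h2
  have h1 := w.p1.I_map s.fv.iX (s.fv.iT ⊔ (s.fv.iY ⊔ s.fv.iZ)) ⊥
  rw [hs.s1, w.p1.map_bot, hP1] at h1
  have h3 := w.ci s.fv.iX s.fv.iX
  rw [hP1] at h3
  rw [← hP]
  -- `I (X1; P ⊔ X2) = 0`
  have h4 : I (w.p1.map s.fv.iX) (P ⊔ w.p2.map s.fv.iX) ⊥ = 0 := ind_add h1 h3 (by rw [sup_bot_eq])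
  have h5 : I P (w.p1.map s.fv.iX) (w.p2.map s.fv.iX) = 0 :=
    ind_symm (ind_of h4 bot_le (by order) le_sup_left (by order))
  have h6 := ind_add (ind_symm h2) h5 (by rw [sup_bot_eq])
  rw [sup_comm (w.p1.map s.fv.iX)]
  exact ind_symm h6

namespace Rct

variable {s : VB S d k N} {w : s.fv.Star} {v : Zed w} (g : Rct v)

theorem un_b0 (hs : s.Hyp) {ρ : ℝ} (hu : UQ S s.fv.z (s.fv.iT ⊔ s.fv.iY) ρ) : UQ g.D g.b0 g.B ρ := by
  obtain ⟨z', hz'⟩ : ∃ z' : Fin N → QS g.D, z' = fun n => g.s1.qs (v.q1.qs (w.p2.qs (s.fv.z n))) := ⟨_, rfl⟩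
  have h1 : UQ g.D z' (g.s1.map (v.q1.map (w.p2.map (s.fv.iT ⊔ s.fv.iY)))) ρ := by
    rw [hz']
    exact ((hu.pull w.p2).pull v.q1).pull g.s1
  have hB : g.B = g.L ⊔ g.U ⊔ g.T0 := rfl
  have h3 : g.s1.map (v.q1.map (w.p2.map s.fv.iL)) = g.L := rfl
  have h4 : g.s1.map (v.q1.map (w.p1.map s.fv.iT)) = g.T0 := rfl
  have h4' : g.s1.map (v.q1.map (w.p2.map s.fv.iT)) = g.T0 := by rw [w.eT]; rfl
  have hU : g.s1.map (v.q1.map (w.p1.map s.fv.iX)) = g.U := rfl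
  have e1 : g.s1.map (v.q1.map (w.p2.map (s.fv.iT ⊔ s.fv.iY))) ≤ g.B := by
    have hYL : s.fv.iY ≤ s.fv.iL ⊔ s.fv.iT := by
      unfold FV.iY
      rw [vd_le]
      intro i
      show dg (s.fv.a i + s.fv.t * s.fv.x i) 1 ≤ _
      have kt : s.fv.t ∈ Kn S 1 le_rfl (s.fv.iL ⊔ s.fv.iT) := by
        rw [mem_Kn]
        exact le_sup_right
      apply (Kn S 1 le_rfl _).add_mem
      · exact (dg_le_vd s.fv.a 1 i).trans (le_sup_left.trans le_sup_left)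
      · exact (Kn S 1 le_rfl _).mul_mem kt ((dg_le_vd s.fv.x 1 i).trans (le_sup_right.trans le_sup_left))
    have h2 : g.s1.map (v.q1.map (w.p2.map (s.fv.iT ⊔ s.fv.iY))) ≤
        g.s1.map (v.q1.map (w.p2.map (s.fv.iL ⊔ s.fv.iT))) :=
      g.s1.map_mono (v.q1.map_mono (w.p2.map_mono (sup_le le_sup_right hYL)))
    refine h2.trans ?_
    rw [w.p2.map_sup, v.q1.map_sup, g.s1.map_sup, h4', h3]
    order
  have e2 : g.B ≤ g.s1.map (v.q1.map (w.p2.map (s.fv.iT ⊔ s.fv.iY))) ⊔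
      g.s1.map (v.q1.map (w.p1.map s.fv.iX ⊔ w.p2.map s.fv.iX)) := by
    have hL : s.fv.iL ≤ (s.fv.iT ⊔ s.fv.iY) ⊔ s.fv.iX := by
      unfold FV.iL
      apply sup_le _ le_sup_right
      rw [vd_le]
      intro i
      have u1 : s.fv.a i = s.fv.y i - s.fv.t * s.fv.x i := by
        unfold FV.y
        ring
      rw [u1]
      have kt : s.fv.t ∈ Kn S 1 le_rfl (s.fv.iT ⊔ s.fv.iY ⊔ vd s.fv.x 1) := by
        rw [mem_Kn]
        exact le_sup_left.trans le_sup_left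
      apply (Kn S 1 le_rfl _).sub_mem
      · exact (dg_le_vd s.fv.y 1 i).trans (le_sup_right.trans le_sup_left)
      · exact (Kn S 1 le_rfl _).mul_mem kt ((dg_le_vd s.fv.x 1 i).trans le_sup_right)
    have h5 := g.s1.map_mono (v.q1.map_mono (w.p2.map_mono hL))
    rw [h3, w.p2.map_sup, v.q1.map_sup, g.s1.map_sup] at h5
    have h6 : g.T0 ≤ g.s1.map (v.q1.map (w.p2.map (s.fv.iT ⊔ s.fv.iY))) := by
      rw [← h4']
      exact g.s1.map_mono (v.q1.map_mono (w.p2.map_mono le_sup_left))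
    rw [hB, v.q1.map_sup, g.s1.map_sup, hU]
    order
  have h5 : UQ g.D z' g.B ρ := by
    refine h1.mono e1 ?_
    have h6 := star_XX hs w
    have h7 := v.q1.I_map (w.p1.map s.fv.iX ⊔ w.p2.map s.fv.iX) (w.p2.map (s.fv.iT ⊔ (s.fv.iY ⊔ s.fv.iZ))) ⊥
    rw [h6, v.q1.map_bot] at h7
    have h8 := g.s1.I_map (v.q1.map (w.p1.map s.fv.iX ⊔ w.p2.map s.fv.iX))
      (v.q1.map (w.p2.map (s.fv.iT ⊔ (s.fv.iY ⊔ s.fv.iZ)))) ⊥
    rw [h7, g.s1.map_bot] at h8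
    have e3 : vd z' 1 ≤ g.s1.map (v.q1.map (w.p2.map (s.fv.iT ⊔ (s.fv.iY ⊔ s.fv.iZ)))) := by
      rw [hz', g.s1.qs_vd (fun n => v.q1.qs (w.p2.qs (s.fv.z n))), v.q1.qs_vd (fun n => w.p2.qs (s.fv.z n)),
        w.p2.qs_vd s.fv.z]
      exact g.s1.map_mono (v.q1.map_mono (w.p2.map_mono (le_sup_right.trans le_sup_right)))
    have e4 : g.s1.map (v.q1.map (w.p2.map (s.fv.iT ⊔ s.fv.iY))) ≤
        g.s1.map (v.q1.map (w.p2.map (s.fv.iT ⊔ (s.fv.iY ⊔ s.fv.iZ)))) :=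
      g.s1.map_mono (v.q1.map_mono (w.p2.map_mono (by order)))
    exact ind_symm (ind_of h8 bot_le (e4.trans le_sup_left) (e2.trans (by order)) (e3.trans le_sup_left))
  have e5 : g.b0 = fun n => z' n + -(∑ j, g.cx0 n j * g.t0 ^ ((j : ℕ) + 1)) := by
    funext n
    rw [hz']
    beta_reduce
    rw [s.z_eq, pe_map, pe_map, pe_map, CB.Rct.pe_succ]
    have h6 : w.p2.qs s.t = w.p1.qs s.t := w.ct.symm
    rw [h6]
    have u1 : g.s1.qs (v.q1.qs (w.p2.qs (s.c n 0))) = g.b0 n := rfl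
    have u3 : g.s1.qs (v.q1.qs (w.p1.qs s.t)) = g.t0 := rfl
    have u7 : ∀ j : Fin k, g.s1.qs (v.q1.qs (w.p2.qs (s.c n j.succ))) = g.cx0 n j := fun _ => rfl
    simp only [u1, u3, u7]
    ring
  rw [e5]
  refine UQ.shift h5 fun n => ?_
  have kt0 : g.t0 ∈ Kn g.D 1 le_rfl g.B := by
    rw [mem_Kn, ← g.T0_eq]
    order
  refine (Kn g.D 1 le_rfl g.B).neg_mem ((Kn g.D 1 le_rfl g.B).sum_mem fun j _ =>
    (Kn g.D 1 le_rfl g.B).mul_mem ?_ ((Kn g.D 1 le_rfl g.B).pow_mem kt0 _))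
  rw [mem_Kn]
  have a1 := g.lcx0 hs n j
  order

end Rct

theorem pe_hom {R R' : Type*} [CommRing R] [CommRing R'] (φ : R →+* R') {k : ℕ} (c : Fin (k + 1) → R) (x : R) :
    φ (∑ a, c a * x ^ (a : ℕ)) = ∑ a, φ (c a) * φ x ^ (a : ℕ) := by
  rw [map_sum]
  exact Finset.sum_congr rfl fun a _ => by rw [map_mul, map_pow]

/-- (H1) for the Taylor coefficients -/
theorem H1TV (hk : 0 < k) (hN : 0 < N) (s : VB S d k N) (hs : s.Hyp) {ρ θ : ℝ} (θ0 : 0 < θ) (θ1 : θ ≤ 1)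
    (hW : WVQ N ρ θ) (hu : UQ S s.fv.z (s.fv.iT ⊔ s.fv.iY) ρ) (w : s.fv.Star) :
    ∃ (E : Sp) (p : Pj E w.D) (Φ : Fin N → Fin k → Fin (k + 1) → QS E),
      (∀ n i, vd (Φ n i) 1 ≤ p.map (w.p2.map s.fv.iL ⊔ w.p1.map s.fv.iX)) ∧
      ∀ n i, p.qs (tay (fun j : Fin k => w.p1.qs (s.c n j.succ)) (w.p1.qs s.t) i) - pe (Φ n i) (p.qs (w.p1.qs s.t)) ∈
        Id E θ := by
  obtain ⟨v⟩ := exists_zed hs w
  obtain ⟨g⟩ := exists_rct hs v
  obtain ⟨W, p, Φ, h1, h2⟩ := rigW hN (g.blk_ok hs) hk g.t1 g.tau g.A g.C (fun _ => rfl) (fun _ => rfl)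
    (by rw [g.blk_B hs]; exact g.ht1 hs) (by rw [g.blk_B hs]; exact g.htau hs) θ0 θ1 hW
    (by rw [g.blk_B hs]; exact g.un_b0 hs hu)
  rw [g.blk_B hs] at h1
  have hBd : g.B = g.L ⊔ g.U ⊔ g.T0 := rfl
  -- lift of the slopes
  have l1 : ∀ n i a, ∃ f : QS W, dQ θ θ0 θ1 f = Φ n i a ∧ dg f 1 ≤ p.map g.B := fun n i a =>
    lift_dp θ0 θ1 (Φ n i a) ((dg_le_vd (Φ n i) 1 a).trans (h1 n i))
  choose Φ1 l2 l3 using l1
  have l4 : ∀ n i, p.qs (g.A n i) - pe (Φ1 n i) (p.qs g.t1) ∈ Id W θ := by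
    intro n i
    rw [← dQ_eq_zero θ θ0 θ1, map_sub, h2 n i, sub_eq_zero]
    unfold pe
    rw [pe_hom]
    exact Finset.sum_congr rfl fun a _ => by rw [l2]
  -- the base `(L, U)` is a family
  have hLU : vd (fun i => p.qs (g.fB (Sum.inl i))) 1 = p.map (g.L ⊔ g.U) := by
    rw [p.qs_vd, g.LU_eq]
  have h3 : ∀ n i, ∃ Φ' : Fin (k + 1) → QS W, vd Φ' 1 ≤ p.map (g.L ⊔ g.U) ∧
      p.qs (g.A n i) - pe Φ' (p.qs g.t1) ∈ Id W θ := by
    intro n i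
    rw [← hLU]
    refine coeff_freeT' θ0.le θ1 (fun i => p.qs (g.fB (Sum.inl i))) (p.map g.T0) (Φ1 n i) (p.qs (g.A n i))
      (p.qs g.t1) ?_ ?_ (l4 n i) ?_
    · rw [hLU, ← p.map_sup, ← hBd, vd_le]
      exact fun a => l3 n i a
    · rw [hLU, p.qs_dg, p.qs_dg, ← p.map_sup]
      apply p.map_mono
      have a1 := g.A_le hs n i
      have a0 := g.T1_eq
      order
    · rw [hLU, p.qs_dg, ← p.map_sup, ← hBd, p.h_map]
      exact g.ht1 hs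
  choose Φ' k1 k2 using h3
  have eLp : ((p.comp g.s2).comp v.q1).map (w.p2.map s.fv.iL ⊔ w.p1.map s.fv.iX) = p.map (g.L ⊔ g.U) := by
    rw [Pj.comp_map, Pj.comp_map, v.q1.map_sup, g.s2.map_sup, g.eL]
    have h4 : g.s2.map (v.q1.map (w.p1.map s.fv.iX)) = g.U := g.eU
    rw [h4]
  refine ⟨W, (p.comp g.s2).comp v.q1, Φ', ?_, ?_⟩
  · intro n i
    rw [eLp]
    exact k1 n i
  · intro n i
    rw [Pj.comp_qs, Pj.comp_qs, Pj.comp_qs, Pj.comp_qs]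
    have h4 : g.s2.qs (v.q1.qs (tay (fun j : Fin k => w.p1.qs (s.c n j.succ)) (w.p1.qs s.t) i)) = g.A n i := by
      rw [tay_map, tay_map]
      rfl
    rw [h4]
    exact k2 n i

/-- (H1) for the coefficients -/
theorem h1V (hk : 0 < k) (hN : 0 < N) (s : VB S d k N) (hs : s.Hyp) {ρ θ : ℝ} (θ0 : 0 < θ) (θ1 : θ ≤ 1)
    (hW : WVQ N ρ θ) (hu : UQ S s.fv.z (s.fv.iT ⊔ s.fv.iY) ρ) : s.H1V θ := by
  intro w
  obtain ⟨E, p, Φ, h1, h2⟩ := H1TV hk hN s hs θ0 θ1 hW hu w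
  refine ⟨E, p, fun nn m n => ∑ l : Fin k, ∑ a : Fin (k + 1), if (l : ℕ) - m + a = n then
        ((((l : ℕ) + 1).choose ((m : ℕ) + 1) : ℕ) : QS E) * (-1) ^ ((l : ℕ) - m) * Φ nn l a else 0, ?_, ?_⟩
  · intro nn m
    rw [vd_le]
    intro n
    refine (Kn E 1 le_rfl _).sum_mem fun l _ => (Kn E 1 le_rfl _).sum_mem fun a _ => ?_
    split_ifs
    · exact (Kn E 1 le_rfl _).mul_mem ((Kn E 1 le_rfl _).mul_mem (natCast_mem (Kn E 1 le_rfl _) _)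
        ((Kn E 1 le_rfl _).pow_mem ((Kn E 1 le_rfl _).neg_mem (Kn E 1 le_rfl _).one_mem) _))
        ((dg_le_vd (Φ nn l) 1 a).trans (h1 nn l))
    · exact (Kn E 1 le_rfl _).zero_mem
  · intro nn m
    have e1 := tay_tay (fun j : Fin k => w.p1.qs (s.c nn j.succ)) (w.p1.qs s.t) m
    rw [← e1]
    have e3 := collect2 (Φ nn) (p.qs (w.p1.qs s.t)) m
    unfold pe
    rw [← e3, tay_map]
    show (∑ l : Fin k, ((((l : ℕ) + 1).choose ((m : ℕ) + 1) : ℕ) : QS E) * (p.qs (-w.p1.qs s.t)) ^ ((l : ℕ) - m) *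
          p.qs (tay (fun j : Fin k => w.p1.qs (s.c nn j.succ)) (w.p1.qs s.t) l)) - _ ∈ _
    rw [← Finset.sum_sub_distrib]
    apply (Id E θ).sum_mem
    intro l _
    rw [map_neg, ← mul_sub]
    exact (Id E θ).mul_mem_left _ (h2 nn l)

end VB

end

end Pool.Agent.Helper50.VC
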